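import Pool.Agent.TH654.OQ.XGH
import Pool.Agent.TH707.BQ.Close

/-!
# Changing an oracle such that the hierarchy collapses and one quantum question gives `PSPACE`
-/

set_option autoImplicit false

namespace Pool.Agent.TH654.OQ

open MeasureTheory Filter Pool.Agent.NPC
open Pool.Agent.H628R3.RO (randomOracle)
open Pool.Agent.H620R2.Gauge Pool.Agent.H516R2.EQP4 Pool.Agent.H516R2.EQP Pool.Agent.H591R3.PHG
open Pool.Agent.H440Q
open Pool.Agent.W900.CH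

open Classical in
/-- Few strings are coded strings. -/
theorem close_of_Tcd {g : ℕ → ℝ} {ε : ℝ} (hε : 0 < ε)
    (hg : ∀ᶠ n : ℕ in atTop, 2 ^ (n : ℝ) ^ ε < g n) :
    ∃ K₀ : ℕ, ∀ K ≥ K₀, ∀ R' : ℕ → Polynomial ℕ, (∀ e n, (n + e + 1) ^ K ≤ (R' e).eval n) →
      ∀ O A : Oracle, (∀ y, y ∉ Tcd K R' → A y = O y) → Close g O A := by
  obtain ⟨K₀, hK⟩ := SPg (ε / 2) (half_pos hε)
  refine ⟨K₀, fun K hK₀ R' hR' O A h => ?_⟩
  have h1 := hK K hK₀ R' hR'
  have h2 : Tendsto (fun n : ℕ => 2 ^ (n + 1)) atTop atTop :=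
    (tendsto_pow_atTop_atTop_of_one_lt (r := 2) (by norm_num)).comp (tendsto_add_atTop_nat 1)
  have h3 := h2.eventually h1
  have h4 : ∀ᶠ n : ℕ in atTop, ((n : ℝ) + 1) ^ (ε / 2) ≤ (n : ℝ) ^ ε := by
    have h5 := (tendsto_natCast_atTop_atTop (R := ℝ)).eventually
      ((tendsto_rpow_atTop (half_pos hε)).eventually_ge_atTop (2 ^ (ε / 2)))
    filter_upwards [h5, eventually_ge_atTop 1] with n h6 h7
    have h8 : (1 : ℝ) ≤ n := by exact_mod_cast h7
    calc ((n : ℝ) + 1) ^ (ε / 2) ≤ (2 * (n : ℝ)) ^ (ε / 2) := by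
          apply Real.rpow_le_rpow (by positivity) (by linarith) (half_pos hε).le
      _ = 2 ^ (ε / 2) * (n : ℝ) ^ (ε / 2) := Real.mul_rpow (by norm_num) (by positivity)
      _ ≤ (n : ℝ) ^ (ε / 2) * (n : ℝ) ^ (ε / 2) := by
          exact mul_le_mul_of_nonneg_right h6 (by positivity)
      _ = (n : ℝ) ^ ε := by
          rw [← Real.rpow_add (by linarith)]
          congr 1
          ring
  filter_upwards [h3, h4, hg] with n h5 h6 h7
  have h9 := dist_le_of_off h n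
  have h10 : Real.logb 2 ((2 ^ (n + 1) : ℕ) : ℝ) = n + 1 := by
    push_cast
    rw [Real.logb_pow, Real.logb_self_eq_one (by norm_num), mul_one]
    push_cast
    ring
  rw [h10] at h5
  have h11 : (2 : ℝ) ^ ((n : ℝ) + 1) ^ (ε / 2) ≤ 2 ^ (n : ℝ) ^ ε :=
    Real.rpow_le_rpow_of_exponent_le (by norm_num) h6
  calc (dist O A n : ℝ) ≤ _ := Nat.cast_le.2 h9
    _ ≤ 2 ^ ((n : ℝ) + 1) ^ (ε / 2) := h5
    _ ≤ 2 ^ (n : ℝ) ^ ε := h11
    _ ≤ g n := h7.le

/-- Every oracle can be changed at few strings such that the polynomial hierarchy collapses to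
`P`, and `PSPACE` is decided by quantum circuits with one question, which decide a language outside
`P`. -/
theorem exists_close_XG {g : ℕ → ℝ}
    (hg : ¬ ∀ ε : ℝ, 0 < ε → ∃ᶠ n : ℕ in atTop, g n ≤ 2 ^ (n : ℝ) ^ ε) (O : Oracle) :
    ∃ A, Close g O A ∧ (∀ L, IsPH A L ↔ IsP A L) ∧ (∀ L, IsPSPACE A L → IsBQPq 1 A L) ∧
      ∃ L, IsBQPq 1 A L ∧ ¬ IsP A L := by
  push Not at hg
  obtain ⟨ε, hε, h⟩ := hg
  obtain ⟨K₀, hK⟩ := close_of_Tcd hε h
  obtain ⟨R', hR', hA⟩ := W.all_XG (max K₀ 1) (le_max_right _ _)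
  obtain ⟨A, h1, h2⟩ := hA O
  exact ⟨A, hK _ (le_max_left _ _) R' hR' O A h1, h2⟩

end Pool.Agent.TH654.OQ
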