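import Pool.Agent.H440Q.H2n
import Pool.Agent.H440Q.PIn
import Pool.Agent.H440Q.QIn
import Pool.Agent.H516R2.EQP5.All

/-!
# One quantum question, many oracles: the remaining statements of `Pool.Agent.H440Q.Props5`

The proofs follow those of the files `GI`, `IS`, `IG`, `IH` of `Pool/Agent/H516R2/EQP5`.
-/

set_option autoImplicit false

namespace Pool.Agent.H440Q

open Pool.Agent.NPC Pool.Agent.H620R2.Gauge Finset H568R2 Pool.Agent.H676 Pool.Agent.H516R2.EQP
  Pool.Agent.H516R2.EQP2 Pool.Agent.H516R2.EQP3 Pool.Agent.H516R2.EQP4 Pool.Agent.H516R2.EQP5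

/-- the permutation of the indices behind `sgm` -/
def sgi {κ : ℕ} (i : Cube κ) : Cube κ :=
  match i with
  | Sum.inl (Sum.inr u) => Sum.inl (Sum.inr (sw u))
  | i => i

theorem sgm_apply {κ : ℕ} (a : Cube κ → Bool) (i : Cube κ) : sgm a i = a (sgi i) := by
  rcases i with (i | i) | i <;> rfl

theorem GIn_all : St_GIn := by
  intro a b M k p q
  refine ⟨M.p.comp (q + Polynomial.C k * (Polynomial.C 2 * p + 1)) +
    (q + Polynomial.C k * (Polynomial.C 2 * p + 1)) + Polynomial.C 4 * Polynomial.X +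
    Polynomial.C (k + 3), ?_⟩
  intro m hm y l hy hl
  obtain ⟨n, hn⟩ : ∃ n : ℕ, n = 2 ^ m ^ b := ⟨_, rfl⟩
  rw [← hn] at hm hy hl ⊢
  set P := M.p.comp (q + Polynomial.C k * (Polynomial.C 2 * p + 1)) +
    (q + Polynomial.C k * (Polynomial.C 2 * p + 1)) + Polynomial.C 4 * Polynomial.X +
    Polynomial.C (k + 3) with hP
  have hPe : P.eval n = M.p.eval (q.eval n + k * (2 * p.eval n + 1)) +
      (q.eval n + k * (2 * p.eval n + 1)) + 4 * n + (k + 3) := by
    rw [hP]
    simp [Polynomial.eval_comp]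
  have hT : y.length + k * (2 * l + 1) ≤ q.eval n + k * (2 * p.eval n + 1) :=
    Nat.add_le_add hy (Nat.mul_le_mul_left _ (by omega))
  have hMT := eval_mono M.p hT
  have ht : y.length + k * (2 * l + 1) + 2 + 4 * m ^ a + k + 1 ≤ P.eval n := by
    rw [hPe]
    omega
  have htM : M.p.eval (y.length + k * (2 * l + 1)) ≤ P.eval n := by
    rw [hPe]
    omega
  refine ⟨by omega, fun B b' c c0 => ⟨?_, ?_⟩⟩
  · intro z ρ₀
    exact GI_main a b m M k y l _ ht htM B b' c
      (fun p => sgm (fun i => Sum.elim (ov ρ₀ p) z i ^^ c0 i)) (fun i' => by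
        simp only [sgm_apply]
        generalize sgi i' = i
        rcases i with j | j
        · simp only [Sum.elim_inl]
          cases hρ : ρ₀ j with
          | none =>
            refine Or.inr ⟨j, fun b => ⟨b ^^ c0 (Sum.inl j), fun v => ?_⟩⟩
            simp [ov, hρ]
          | some b =>
            refine DTr.const ⟨b ^^ c0 (Sum.inl j), fun v => ?_⟩
            simp [ov, hρ]
        · exact DTr.const ⟨z j ^^ c0 (Sum.inr j), fun v => rfl⟩)
  · intro p
    exact GI_main a b m M k y l _ ht htM B b' c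
      (fun z => sgm (fun i => Sum.elim p z i ^^ c0 i)) (fun i' => by
        simp only [sgm_apply]
        generalize sgi i' = i
        rcases i with j | j
        · exact DTr.const ⟨p j ^^ c0 (Sum.inl j), fun v => rfl⟩
        · refine Or.inr ⟨j, fun b => ⟨b ^^ c0 (Sum.inr j), fun v => ?_⟩⟩
          simp)

theorem ISn (hp : St_PIn) (hh : St_H2n) (ha : St_AT) (hg : St_GIn) : St_ISn := by
  intro a b hb hba M p k B N
  obtain ⟨P, hP⟩ := hg a b M k p Polynomial.X
  obtain ⟨m₀, hm₀⟩ := ha a b k P hb hba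
  obtain ⟨-, -, -, hal, -⟩ := hp a b hb
  set m : ℕ := max m₀ (N + 1) with hm
  have hm1 : m₀ ≤ m := le_max_left _ _
  have hm2 : N + 1 ≤ m := le_max_right _ _
  have hm3 : m ≤ m ^ b := Nat.le_self_pow (by omega) _
  have hm4 : m ^ b < 2 ^ m ^ b := Nat.lt_two_pow_self
  obtain ⟨h20, hle, ht4, hnum⟩ := hm₀ m hm1
  set y : List Bool := List.replicate (2 ^ m ^ b) true with hy
  have hylen : y.length = 2 ^ m ^ b := by rw [hy, List.length_replicate]
  obtain ⟨h1t, hgood⟩ := hP m hle y (p.eval (2 ^ m ^ b)) (by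
    rw [hylen, Polynomial.eval_X]) le_rfl
  obtain ⟨n1, n2⟩ := hnum _ rfl h1t
  have hG : Goods (m ^ a) (P.eval (2 ^ m ^ b)) k
      (fun x => QO M (p.eval (2 ^ m ^ b)) k true y (pmN a b m x B)) := by
    have h := hgood B true false
    simp only [Bool.xor_false] at h
    exact h
  have hInI : ∀ z : List Bool, z.length ≤ N → ¬ InI a b m z := by
    intro z hz hI
    have h1 := hI.2
    omega
  rcases hh (m ^ a) (P.eval (2 ^ m ^ b)) k h20 h1t ht4 n1 n2 _ hG with ⟨x, hx, hv⟩ | ⟨x, hx, hv⟩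
  · refine ⟨m, x, y, Or.inl hx, hInI, ?_⟩
    rw [hylen]
    intro hiff
    have h1 : y ∈ LIn a b (pmN a b m x B) := ⟨m, hylen, (hal m x B).1 hx⟩
    have h2 := hiff.2 h1
    rw [h2] at hv
    exact absurd hv (by decide)
  · refine ⟨m, x, y, Or.inr hx, hInI, ?_⟩
    rw [hylen]
    intro hiff
    obtain ⟨m', h1, h2⟩ := hiff.1 hv
    rw [hylen] at h1
    have h3 : m ^ b = m' ^ b := Nat.pow_right_injective le_rfl h1
    have h4 : m = m' := Nat.pow_left_injective (by omega : b ≠ 0) h3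
    rw [← h4, (hal m x B).2 hx] at h2
    norm_num at h2

theorem IGn (hp : St_PIn) (hq : St_QIn) (hs : St_ISn) (hdg : St_DG) (hll : St_LL)
    (hdq : St_DQ) : St_IGn := by
  intro a b hb hba R
  obtain ⟨p1, p2, p3, p4, p6⟩ := hp a b hb
  obtain ⟨Cq, hCq, hCq'⟩ := hq a b hb
  obtain ⟨-, hl2⟩ := hll
  have g1 : ∃ B : Oracle, (∀ z, z ∉ TI a b → B z = R z) ∧
      ∀ m, alN a b m B = 0 ∨ alN a b m B = 1 / 2 := by
    obtain ⟨B, h1, h2⟩ := p6 R
    exact ⟨B, h1, fun m => Or.inl (h2 m)⟩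
  have g2 : ∀ B : Oracle, (∀ N : ℕ, ∃ B' : Oracle, ((∀ z, z ∉ TI a b → B' z = R z) ∧
      ∀ m, alN a b m B' = 0 ∨ alN a b m B' = 1 / 2) ∧
      ∀ z : List Bool, z.length ≤ N → B' z = B z) → ((∀ z, z ∉ TI a b → B z = R z) ∧
      ∀ m, alN a b m B = 0 ∨ alN a b m B = 1 / 2) := by
    intro B h
    refine ⟨fun z hz => ?_, fun m => ?_⟩
    · obtain ⟨B', ⟨h1, -⟩, he⟩ := h z.length
      rw [← he z le_rfl, h1 z hz]
    · obtain ⟨B', ⟨-, h2⟩, he⟩ := h (2 ^ m ^ b + 5 + 3 * m ^ a)
      have e : alN a b m B' = alN a b m B := p3 m B' B fun z hz => he z (le_of_eq hz.2)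
      rw [← e]
      exact h2 m
  have g3 : ∀ (t : Alg × Polynomial ℕ × ℕ) (B : Oracle) (N : ℕ),
      ((∀ z, z ∉ TI a b → B z = R z) ∧ ∀ m, alN a b m B = 0 ∨ alN a b m B = 1 / 2) →
      ∃ (B' : Oracle) (N' : ℕ), ((∀ z, z ∉ TI a b → B' z = R z) ∧
        ∀ m, alN a b m B' = 0 ∨ alN a b m B' = 1 / 2) ∧
      (∀ z : List Bool, z.length ≤ N → B' z = B z) ∧
      ∀ B'' : Oracle, ((∀ z, z ∉ TI a b → B'' z = R z) ∧
        ∀ m, alN a b m B'' = 0 ∨ alN a b m B'' = 1 / 2) →
        (∀ z : List Bool, z.length ≤ N' → B'' z = B' z) →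
        ∃ y : List Bool, ¬ (QO t.1 (t.2.1.eval y.length) t.2.2 true y B'' = true ↔
          y ∈ LIn a b B'') := by
    rintro ⟨M, p, k⟩ B N ⟨hB1, hB2⟩
    obtain ⟨m, x, y, hx, hN, hbad⟩ := hs a b hb hba M p k B N
    obtain ⟨N2, hN2⟩ := hl2 M (p.eval y.length) k true y
    refine ⟨pmN a b m x B, max (y.length + 5 + 3 * y.length ^ a) N2,
      ⟨fun z hz => ?_, fun m' => ?_⟩, fun z hz => p2 m z x B (hN z hz), fun B'' _ h'' => ⟨y, ?_⟩⟩
    · rw [p2 m z x B (fun h => hz ⟨m, h⟩)]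
      exact hB1 z hz
    · by_cases hm : m' = m
      · subst hm
        rcases hx with hx | hx
        · exact Or.inr ((p4 m' x B).1 hx)
        · exact Or.inl ((p4 m' x B).2 hx)
      · have e : alN a b m' (pmN a b m x B) = alN a b m' B := by
          apply p3
          intro z hz
          exact p2 m z x B (fun h => hm (p1 m' m z hz h))
        rw [e]
        exact hB2 m'
    · have e2 := hN2 B'' (pmN a b m x B) fun z hz => h'' z (hz.trans (le_max_right _ _))
      have e1 : y ∈ LIn a b B'' ↔ y ∈ LIn a b (pmN a b m x B) := by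
        have e3 : ∀ m' : ℕ, y.length = 2 ^ m' ^ b →
            alN a b m' B'' = alN a b m' (pmN a b m x B) := by
          intro m' hm'
          apply p3
          intro z hz
          apply h''
          refine le_trans ?_ (le_max_left _ _)
          rw [hz.2]
          have h4 : m' ≤ y.length := by rw [hm']; exact IG_le m' b hb
          have h5 : m' ^ a ≤ y.length ^ a := Nat.pow_le_pow_left h4 a
          omega
        constructor
        · rintro ⟨m', h1, h2⟩
          exact ⟨m', h1, by rw [← e3 m' h1]; exact h2⟩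
        · rintro ⟨m', h1, h2⟩
          exact ⟨m', h1, by rw [e3 m' h1]; exact h2⟩
      simp only
      rw [e1, e2]
      exact hbad
  have hcnt : Countable (Alg × Polynomial ℕ × ℕ) := by
    have h2 : Countable (Polynomial ℕ) := by
      have : Function.Injective (fun p : Polynomial ℕ => (p.toFinsupp.coeff : ℕ →₀ ℕ)) := by
        intro p q h
        ext n
        exact DFunLike.congr_fun h n
      exact this.countable
    infer_instance
  obtain ⟨B, hB, hbad⟩ := hdg (Alg × Polynomial ℕ × ℕ)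
    (fun B => (∀ z, z ∉ TI a b → B z = R z) ∧ ∀ m, alN a b m B = 0 ∨ alN a b m B = 1 / 2)
    (fun B t => ∃ y : List Bool, ¬ (QO t.1 (t.2.1.eval y.length) t.2.2 true y B = true ↔
          y ∈ LIn a b B)) g1 g2 g3
  refine ⟨B, hB.1, LIn a b B, ?_, ?_⟩
  · refine ⟨Cq, hCq, fun x => ⟨(hCq' x).1, fun hxL => ?_, fun hxL => ?_⟩⟩
    · obtain ⟨m, h1, h2⟩ := hxL
      exact ((hCq' x).2.1 m h1 B).1 h2
    · by_cases hm : ∃ m : ℕ, x.length = 2 ^ m ^ b
      · obtain ⟨m, hm⟩ := hm
        exact ((hCq' x).2.1 m hm B).2 ((hB.2 m).resolve_right (fun h => hxL ⟨m, hm, h⟩))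
      · push Not at hm
        rw [(hCq' x).2.2 hm B]
        norm_num
  · rintro ⟨V, p, k, ⟨M, hM⟩, hL⟩
    obtain ⟨x, hx⟩ := hbad (M, p, k)
    apply hx
    have h1 : Quant (p.eval x.length) V k true x ↔ QO M (p.eval x.length) k true x B = true :=
      hdq M B V (List Bool) (fun y' A' => decide (M.out A' y' = some [true])) B
        (p.eval x.length) k true x hM (fun _ _ => rfl)
    exact h1.symm.trans (hL x).symm

theorem IHn (hg : St_IGn) (hs : St_SI) (hn : St_NNg) : St_IHn := by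
  intro f ε hε hf
  obtain ⟨a, b, hb, hab, hT⟩ := hs ε hε
  refine hn f (TI a b) _ ∅ ?_ IH_ranO_empty ?_
  · filter_upwards [hT, hf] with N h1 h2
    exact h1.trans h2
  · intro R _
    obtain ⟨A, h1, h2⟩ := hg a b hb hab R
    exact ⟨A, h2, h1⟩

theorem all_ISn : St_ISn := ISn PIn (H2n (L2p L1) all_CM) AT GIn_all

theorem all_IGn : St_IGn := IGn PIn QIn all_ISn DG LL DQ

theorem all_IHn : St_IHn := IHn all_IGn SI NNg

end Pool.Agent.H440Q
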