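import Pool.Agent.TH654.OQ.GXg
import Pool.Agent.TH654.OQ.XSg
import Pool.Agent.TH654.OQ.COs
import Pool.Agent.TH654.OQ.Fin
import Pool.Agent.H440Q.W.AllY

/-!
# How many oracles make the hierarchy collapse while one quantum question gives `PSPACE`?

The planned statements `St_XG` and `St_XH` of `Pool/Agent/H440Q/W/Props.lean`.
-/

set_option autoImplicit false

namespace Pool.Agent.H440Q.W

open Pool.Agent.NPC Pool.Agent.H620R2.Gauge Finset H568R2 Pool.Agent.H676 Pool.Agent.H516R2.EQP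
  Pool.Agent.H516R2.EQP2 Pool.Agent.H516R2.EQP3 Pool.Agent.H516R2.EQP4 Pool.Agent.H591R3.PHG

theorem XG (hp : St_PU) (hq : St_QUg) (hps : St_PS) (hc : St_CL) (hdg : St_DG) (hx : St_XSg)
    (hgx : St_GXg) (hco : St_COs) (hcp : St_CP) (hlo : St_LO) (hha : St_HA) : St_XG := by
  intro K hK
  obtain ⟨Φ, R', hR', hΦ, hcode, hpre, hred⟩ := hco K
  refine ⟨R', hR', fun R => ?_⟩
  obtain ⟨hid, C, hH, hC0, hPS⟩ := hps
  obtain ⟨Cq, hCq, hCq'⟩ := hq K
  obtain ⟨-, -, -, -, hal, -, -⟩ := hp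
  obtain ⟨-, hpad, hnp, hLocA, hLit⟩ := hha
  have hLocΦ : Loc Φ := hlo Φ hΦ
  have hLocH : Loc (hat K R) := hLocA K R
  obtain ⟨Θ, hΘ⟩ : ∃ Θ : Oracle → Oracle, Θ = fun B => Φ (hat K R B) := ⟨_, rfl⟩
  have hΘB : ∀ B, Θ B = Φ (hat K R B) := fun B => by rw [hΘ]
  have hLoc : Loc Θ := by
    intro B B' w h
    rw [hΘB, hΘB]
    exact hLocΦ _ _ w fun z hz => hLocH B B' z fun w' hw' => h w' (hw'.trans hz)
  have hGood : GoodW Θ := by
    rw [hΘ]
    exact hgx Φ hΦ (hat K R) (hLit K R) hLocH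
  -- values of `al`
  have hval : ∀ (u : List Bool) (B B' : Oracle), (∀ z : List Bool, z.length ≤ blen u →
      B z = B' z) → al u B = al u B' := by
    intro u B B' h
    exact hal u B B' (fun z hz => h z (le_of_eq hz.2))
  have hblk : ∀ (u v : List Bool) (B : Oracle), InB u v → Θ B (padc K v) = B v := by
    intro u v B hv
    obtain ⟨w, rfl⟩ : ∃ w, v = false :: false :: w := by
      have h1 := hv.1
      rcases v with _ | ⟨a, _ | ⟨b, w⟩⟩
      · simp at h1
      · rw [show 2 + u.length = u.length + 1 + 1 by omega, List.take_succ_cons] at h1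
        simp at h1
      · rw [show 2 + u.length = u.length + 1 + 1 by omega, List.take_succ_cons,
          List.take_succ_cons] at h1
        simp only [List.cons.injEq] at h1
        exact ⟨w, by rw [h1.1, h1.2.1]⟩
    rw [hΘB]
    have h2 : Φ (hat K R B) (padc K (false :: false :: w)) =
        hat K R B (padc K (false :: false :: w)) := by
      have h3 : padc K (false :: false :: w) = false :: false :: (false :: (w ++ true ::
          List.replicate ((false :: false :: w).length ^ K) false)) := rfl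
      rw [h3]
      exact hpre _ _
    rw [h2]
    exact hpad K R B _
  have g1 : ∃ B, Val Θ hid C B := by
    obtain ⟨B', -, hB'⟩ := hc Θ hid C hLoc hH (fun _ => false) 0 (fun u hu => by
      unfold blen at hu
      omega)
    exact ⟨B', hB'⟩
  have g2 : ∀ B : Oracle, (∀ N : ℕ, ∃ B' : Oracle, Val Θ hid C B' ∧
      ∀ z : List Bool, z.length ≤ N → B' z = B z) → Val Θ hid C B := by
    intro B h u
    obtain ⟨B', hB', he⟩ := h (blen u)
    have h1 : al u B' = al u B := hval u B' B he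
    have hlen : u.length ≤ blen u := by
      unfold blen
      omega
    have h2 : hid u (Θ B') = hid u (Θ B) := by
      apply hH
      intro z hz
      apply hLoc
      intro z' hz'
      exact he z' (by omega)
    have h3 := hB' u
    unfold Cond at h3 ⊢
    rw [h1, h2] at h3
    exact h3
  have g3 : ∀ (M : Alg) (B : Oracle) (N : ℕ), Val Θ hid C B → ∃ (B' : Oracle) (N' : ℕ),
      Val Θ hid C B' ∧ (∀ z : List Bool, z.length ≤ N → B' z = B z) ∧
      ∀ B'' : Oracle, Val Θ hid C B'' → (∀ z : List Bool, z.length ≤ N' → B'' z = B' z) →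
        ∃ x, ¬ (M.out (Θ B'') x = some [true] ↔ al (false :: false :: x) B'' = 1 / 2) := by
    intro M B N hB
    obtain ⟨B', x, hB', he, hbad⟩ := hx Θ hid C hGood hLoc hH hC0 M B N hB
    obtain ⟨qb, hqb⟩ := M.out_local
    refine ⟨B', blen (false :: false :: x) + qb.eval x.length, hB', he, fun B'' _ h'' => ⟨x, ?_⟩⟩
    have h1 : al (false :: false :: x) B'' = al (false :: false :: x) B' :=
      hval _ _ _ (fun z hz => h'' z (by omega))
    have h2 : M.out (Θ B'') x = M.out (Θ B') x := by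
      obtain ⟨Q, -, hQ2, hQ3⟩ := hqb (Θ B') x
      apply hQ3
      intro q hq
      apply hLoc
      intro z hz
      apply h''
      have := hQ2 q hq
      omega
    rw [h1, h2]
    exact hbad
  obtain ⟨B, hB, hbad⟩ := hdg Alg (Val Θ hid C)
    (fun B M => ∃ x, ¬ (M.out (Θ B) x = some [true] ↔ al (false :: false :: x) B = 1 / 2))
    g1 g2 g3
  have hacc1 : ∀ u, al u B = 1 / 2 → 2 / 3 ≤ accProb (Θ B) (Cq u) := fun u hu =>
    ((hCq' u).2 (Θ B) B fun v hv => hblk u v B hv).1 hu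
  have hacc0 : ∀ u, al u B = 0 → accProb (Θ B) (Cq u) ≤ 1 / 3 := fun u hu =>
    ((hCq' u).2 (Θ B) B fun v hv => hblk u v B hv).2 hu
  refine ⟨Θ B, fun y hy => ?_, fun L => ⟨fun h => ?_, fun h => h.isPH⟩, fun L hL => ?_,
    {x | al (false :: false :: x) B = 1 / 2}, ?_, ?_⟩
  · rw [hΘB, hcode _ _ fun e x h => hy (Or.inl ⟨e, x, h⟩)]
    exact hnp K R B y fun v hv => hy (Or.inr ⟨v, hv⟩)
  · refine hcp (Θ B) (fun M p => ?_) L h
    obtain ⟨g, hg, hg'⟩ := hred M p
    refine ⟨g, hg, fun x => ?_⟩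
    rw [hΘB]
    exact hg' (hat K R B) x
  · obtain ⟨g, hg, hgx⟩ := hPS (Θ B) L hL
    refine ⟨fun x => Cq (g x), FX_comp hCq hg, fun x => ⟨(hCq' _).1, fun hxL => ?_,
      fun hxL => ?_⟩⟩
    · apply hacc1
      exact ((hB (g x)).2 (hgx x).1).2 ((hgx x).2.1 hxL)
    · apply hacc0
      refine (hB (g x)).1.resolve_right (fun h => hxL ?_)
      exact (hgx x).2.2 (((hB (g x)).2 (hgx x).1).1 h)
  · refine ⟨fun x => Cq (false :: false :: x), FX_comp hCq FX_pre, fun x =>
      ⟨(hCq' _).1, fun hxL => hacc1 _ hxL, fun hxL => hacc0 _ ?_⟩⟩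
    exact (hB _).1.resolve_right hxL
  · rintro ⟨V, ⟨M, hM⟩, hL⟩
    obtain ⟨x, hx⟩ := hbad M
    apply hx
    rw [hM x]
    constructor
    · intro h
      exact (hL x).2 (Option.some.inj h)
    · intro h
      rw [(hL x).1 h]

theorem XH (hsp : St_SPg) (hnn : St_NNg) (hxg : St_XG) : St_XH := by
  intro f
  constructor
  · intro hnull ε hε
    by_contra hcon
    rw [Filter.not_frequently] at hcon
    obtain ⟨K₀, hK⟩ := hsp ε hε
    obtain ⟨R', hR', hA⟩ := hxg (max K₀ 1) (le_max_right _ _)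
    refine hnn f (Tcd (max K₀ 1) R') _ ∅ ?_ Pool.Agent.H516R2.EQP5.IH_ranO_empty ?_ hnull
    · filter_upwards [hK _ (le_max_left _ _) _ hR', hcon] with N h1 h2
      exact h1.trans (not_le.1 h2).le
    · intro R _
      obtain ⟨A, h1, h2, h3, h4⟩ := hA R
      exact ⟨A, ⟨h2, h3, h4⟩, h1⟩
  · intro hf
    refine nullQ hf _ ?_
    rintro A ⟨-, h1, -⟩
    exact (YH_isBQP (h1 _ (hitLang_np A).isPSPACE)).withAdvice

theorem all_XG : St_XG :=
  XG PU QUg PS all_CL DG (XSg PU all_HY all_CL BL all_VL) (GXg RT (SW LO RT))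
    Pool.Agent.TH654.OQ.COs CP LO all_HA

theorem all_XH : St_XH := XH SPg NNg all_XG

end Pool.Agent.H440Q.W
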